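import Pool.Agent.P.MP_bf7e1e_gt.Defs
import Pool.Agent.P.MP_bf7e1e_gt.Sq3

open Pool.Agent.P.MP_bf7e1e_gt

/-- There is a countably compact separable Tychonoff space of covering dimension zero whose
square has infinite covering dimension. -/
theorem Pool.Agent.Results.MP_bf7e1e_gt.CompactSquare.result :
    ∃ (X : Type) (_ : TopologicalSpace X), T35Space X ∧ CountablyCompactSpace X ∧
      TopologicalSpace.SeparableSpace X ∧ covDim X = 0 ∧ covDim (X × X) = ⊤ :=
  Sq.main
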