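import Pool.Agent.P.MP_bf7e1e_gt.Defs
import Pool.Agent.P.MP_bf7e1e_gt.Main

open Pool.Agent.P.MP_bf7e1e_gt

/-- There are Tychonoff spaces `X` (countably compact) and `Y` (Lindelöf), both of covering
dimension zero, whose product has covering dimension larger than `dim X + dim Y`. -/
theorem Pool.Agent.Results.MP_bf7e1e_gt.Counterexample.result :
    ∃ (X Y : Type) (_ : TopologicalSpace X) (_ : TopologicalSpace Y),
      T35Space X ∧ T35Space Y ∧ CountablyCompactSpace X ∧ LindelofSpace Y ∧
        covDim X = 0 ∧ covDim Y = 0 ∧ covDim X + covDim Y < covDim (X × Y) :=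
  main
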